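import Mathlib

/-!
# CI-4 Twist: the twisted circulant matrix of a cyclic algebra

`tw σ b` is the left multiplication by `u` (with `u ^ l = b`) on `M ^ l`, `tmat σ b x` is the matrix with the rows `x, u x, …, u ^ (l - 1) x`.
`tmat_iter`: induction on `s` (for `s + 1 < l`): `tw (tmat x s) j = (if j = 0 then b else 1) * σ ((if j - 1 < s then b else 1) * σ^[s] (x (j - 1 - s)))`, with `σ b = b`;
cases `j = 0`, `0 < j` (`Fin` subtraction is modulo `l`). `tw_iter`: one more step from `s = l - 1`.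
`det_tmat`: entrywise `σ (tmat x i j) = u i * tmat x (i + 1) (j + 1) * v j` (indices modulo `l`), with `u i = 1` for `i + 1 < l`, `u (l - 1) = b`, `v j = 1` for `j + 1 < l`,
`v (l - 1) = b⁻¹`; so `σ (det) = (∏ u) (∏ v) det (submatrix)` and the submatrix along the same permutation `i ↦ i + 1` of rows and columns has the same determinant
(`Matrix.det_submatrix_equiv_self`, `Equiv.addRight 1`; `Matrix.det_mul_row`, `Matrix.det_mul_column`).
-/

set_option autoImplicit false

namespace Pool.Agent.Helper59.CI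

variable {M : Type*} [Field M] {l : ℕ} [NeZero l]

def tw (σ : M ≃+* M) (b : M) (w : Fin l → M) : Fin l → M := fun j => (if (j : ℕ) = 0 then b else 1) * σ (w (j - 1))

def tmat (σ : M ≃+* M) (b : M) (x : Fin l → M) : Matrix (Fin l) (Fin l) M :=
  Matrix.of fun i j => (if j < i then b else 1) * (⇑σ)^[(i : ℕ)] (x (j - i))

private theorem twist_val_sub (j : Fin l) : ((j - 1 : Fin l) : ℕ) = if (j : ℕ) = 0 then l - 1 else (j : ℕ) - 1 := by
  have hl : l ≠ 0 := NeZero.ne l
  have hj := j.2
  rw [Fin.sub_def, Fin.val_one']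
  change (l - 1 % l + (j : ℕ)) % l = _
  rcases Nat.lt_or_ge 1 l with h1 | h1
  · rw [Nat.mod_eq_of_lt h1]
    split_ifs with h0
    · rw [h0, add_zero, Nat.mod_eq_of_lt (by omega)]
    · rw [show l - 1 + (j : ℕ) = ((j : ℕ) - 1) + l by omega, Nat.add_mod_right, Nat.mod_eq_of_lt (by omega)]
  · have h2 : l = 1 := by omega
    have h3 : (j : ℕ) = 0 := by omega
    rw [if_pos h3]
    subst h2
    omega

private theorem twist_val_add (j : Fin l) : ((j + 1 : Fin l) : ℕ) = if (j : ℕ) + 1 = l then 0 else (j : ℕ) + 1 := by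
  have hl : l ≠ 0 := NeZero.ne l
  have hj := j.2
  rw [Fin.add_def, Fin.val_one']
  change ((j : ℕ) + 1 % l) % l = _
  rcases Nat.lt_or_ge 1 l with h1 | h1
  · rw [Nat.mod_eq_of_lt h1]
    split_ifs with h0
    · rw [h0, Nat.mod_self]
    · rw [Nat.mod_eq_of_lt (by omega)]
  · have h2 : l = 1 := by omega
    have h3 : (j : ℕ) = 0 := by omega
    rw [if_pos (by omega)]
    subst h2
    omega

private theorem twist_iter (σ : M ≃+* M) {b : M} (hb : σ b = b) (x : Fin l → M) (s : ℕ) (hs : s ≤ l) (j : Fin l) :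
    (tw σ b)^[s] x j = (if (j : ℕ) < s then b else 1) * (⇑σ)^[s] (x (j - (Fin.ofNat l s))) := by
  induction s generalizing j with
  | zero =>
    have h1 : (Fin.ofNat l 0 : Fin l) = 0 := rfl
    rw [h1, sub_zero, if_neg (Nat.not_lt_zero _), one_mul]
    rfl
  | succ s ih =>
    rw [Function.iterate_succ_apply', Function.iterate_succ_apply']
    change (if (j : ℕ) = 0 then b else 1) * σ ((tw σ b)^[s] x (j - 1)) = _
    rw [ih (by omega), map_mul, ← mul_assoc, twist_val_sub]
    have h1 : (j - 1 - Fin.ofNat l s : Fin l) = j - Fin.ofNat l (s + 1) := by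
      have h2 : (Fin.ofNat l (s + 1) : Fin l) = Fin.ofNat l s + 1 := by
        apply Fin.ext
        rw [Fin.add_def, Fin.val_one']
        change (s + 1) % l = (s % l + 1 % l) % l
        exact Nat.add_mod s 1 l
      rw [h2, sub_sub, add_comm]
    rw [h1]
    congr 1
    by_cases h0 : (j : ℕ) = 0
    · rw [if_pos h0, if_pos h0, if_neg (by omega), if_pos (by omega), map_one, mul_one]
    · rw [if_neg h0, if_neg h0, one_mul]
      by_cases h4 : (j : ℕ) - 1 < s
      · rw [if_pos h4, if_pos (by omega), hb]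
      · rw [if_neg h4, if_neg (by omega), map_one]

theorem tmat_iter (σ : M ≃+* M) {b : M} (hb : σ b = b) (x : Fin l → M) (i : Fin l) : tmat σ b x i = (tw σ b)^[(i : ℕ)] x := by
  funext j
  rw [twist_iter σ hb x i i.2.le j]
  have h1 : (Fin.ofNat l (i : ℕ) : Fin l) = i := Fin.ext (Nat.mod_eq_of_lt i.2)
  rw [h1]
  rfl

theorem tw_iter (σ : M ≃+* M) {b : M} (hb : σ b = b) (hσ : ∀ y, (⇑σ)^[l] y = y) (x : Fin l → M) : (tw σ b)^[l] x = b • x := by
  funext j
  rw [twist_iter σ hb x l le_rfl j, hσ, if_pos j.2]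
  have h1 : (Fin.ofNat l l : Fin l) = 0 := Fin.ext (by
    change l % l = ((0 : Fin l) : ℕ)
    rw [Nat.mod_self]
    rfl)
  rw [h1, sub_zero]
  rfl

theorem det_tmat (σ : M ≃+* M) {b : M} (hb : σ b = b) (hb0 : b ≠ 0) (hσ : ∀ y, (⇑σ)^[l] y = y) (x : Fin l → M) :
    σ (tmat σ b x).det = (tmat σ b x).det := by
  have hent : ∀ i j : Fin l, σ (tmat σ b x i j) =
      (if (i : ℕ) + 1 = l then b else 1) * ((if (j : ℕ) + 1 = l then b⁻¹ else 1) * tmat σ b x (i + 1) (j + 1)) := by
    intro i j
    have hi := i.2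
    have hj := j.2
    change σ ((if j < i then b else 1) * (⇑σ)^[(i : ℕ)] (x (j - i))) = _ * (_ *
      ((if j + 1 < i + 1 then b else 1) * (⇑σ)^[((i + 1 : Fin l) : ℕ)] (x (j + 1 - (i + 1)))))
    have hA : (j < i) ↔ (j : ℕ) < (i : ℕ) := Iff.rfl
    have hB : (j + 1 < i + 1) ↔ ((j + 1 : Fin l) : ℕ) < ((i + 1 : Fin l) : ℕ) := Iff.rfl
    rw [twist_val_add, twist_val_add] at hB
    have hif : σ (if j < i then b else 1) = if j < i then b else 1 := by
      split_ifs
      · exact hb
      · exact map_one σ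
    rw [add_sub_add_right_eq_sub, map_mul, ← Function.iterate_succ_apply' (⇑σ), twist_val_add, hif,
      Nat.succ_eq_add_one]
    by_cases h1 : (i : ℕ) + 1 = l
    · rw [if_pos h1, if_pos h1]
      rw [if_pos h1] at hB
      rw [if_neg (fun h => absurd (hB.1 h) (Nat.not_lt_zero _)), h1, hσ, one_mul]
      by_cases h2 : (j : ℕ) + 1 = l
      · rw [if_pos h2, if_neg (fun h => by have := hA.1 h; omega), one_mul, ← mul_assoc, mul_inv_cancel₀ hb0, one_mul]
        rfl
      · rw [if_neg h2, if_pos (hA.2 (by omega)), one_mul]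
        rfl
    · rw [if_neg h1, if_neg h1, one_mul]
      rw [if_neg h1] at hB
      by_cases h2 : (j : ℕ) + 1 = l
      · rw [if_pos h2] at hB
        rw [if_pos h2, if_neg (fun h => by have := hA.1 h; omega), if_pos (hB.2 (by omega)), one_mul, ← mul_assoc,
          inv_mul_cancel₀ hb0, one_mul]
      · rw [if_neg h2] at hB
        rw [if_neg h2, one_mul]
        by_cases h3 : (j : ℕ) < (i : ℕ)
        · rw [if_pos (hA.2 h3), if_pos (hB.2 (by omega))]
        · rw [if_neg (fun h => h3 (hA.1 h)), if_neg (fun h => by have := hB.1 h; omega)]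
  have hmat : (tmat σ b x).map σ = Matrix.of fun i j => (if ((i : Fin l) : ℕ) + 1 = l then b else 1) *
      (Matrix.of fun i j => (if ((j : Fin l) : ℕ) + 1 = l then b⁻¹ else 1) *
        ((tmat σ b x).submatrix (Equiv.addRight (1 : Fin l)) (Equiv.addRight (1 : Fin l))) i j) i j := by
    ext i j
    exact hent i j
  have hdet : σ (tmat σ b x).det = ((tmat σ b x).map σ).det := RingEquiv.map_det σ (tmat σ b x)
  rw [hdet, hmat, Matrix.det_mul_column, Matrix.det_mul_row, Matrix.det_submatrix_equiv_self, ← mul_assoc,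
    ← Finset.prod_mul_distrib]
  have hone : ∏ i : Fin l, ((if (i : ℕ) + 1 = l then b else 1) * (if (i : ℕ) + 1 = l then b⁻¹ else 1)) = 1 := by
    refine Finset.prod_eq_one fun i _ => ?_
    split_ifs
    · exact mul_inv_cancel₀ hb0
    · exact mul_one 1
  rw [hone, one_mul]

end Pool.Agent.Helper59.CI
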