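import Pool.Agent.Helper59.CI.Semi
import Pool.Agent.Helper59.CI.Twist

/-!
# CI-5 Aniso: the determinant does not vanish when `b` is not a norm

Proof. Suppose `det = 0`, `x ≠ 0`. Let `I` be the span of the rows `tmat x i = (tw)^[i] x`; `0 < k = dim I < l` (row `0` is `x`; `det = 0` gives dependent rows: `Matrix.linearIndependent_rows_iff_isUnit` or
`Matrix.exists_vecMul_eq_zero_iff`, `finrank_span_lt_card` type lemmas, or `rank`). `tw σ b` is additive and semilinear and maps `I` to `I` (on the generators: `tw (row i) = row (i + 1)`, and `tw (row (l - 1)) = b • x`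
by `tw_iter`; use `Submodule.span_induction`). Apply `semi_det` to `V = I`, `U` = the restriction: `∏ σ^[t] y = b ^ k`. Also `∏ σ^[t] b = b ^ l`. `k` and `l` are coprime: integers `u, v` with `k u + l v = 1`
(`Int.gcd_eq_gcd_ab`); `z = y ^ u * b ^ v` (`zpow`, `y ≠ 0` since `b ≠ 0`) has `∏ σ^[t] z = b`, a contradiction (`b ≠ 0` because `∏ σ^[t] 0 = 0` for `l > 0`).
-/

set_option autoImplicit false

namespace Pool.Agent.Helper59.CI

variable {M : Type*} [Field M] {l : ℕ} [NeZero l]

private theorem aniso_iter_mul (σ : M ≃+* M) (t : ℕ) (z w : M) :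
    (⇑σ)^[t] (z * w) = (⇑σ)^[t] z * (⇑σ)^[t] w := by
  induction t with
  | zero => rfl
  | succ t ih => rw [Function.iterate_succ_apply', Function.iterate_succ_apply',
      Function.iterate_succ_apply', ih, map_mul]

private theorem aniso_iter_zpow (σ : M ≃+* M) (t : ℕ) (z : M) (n : ℤ) :
    (⇑σ)^[t] (z ^ n) = ((⇑σ)^[t] z) ^ n := by
  induction t with
  | zero => rfl
  | succ t ih => rw [Function.iterate_succ_apply', Function.iterate_succ_apply', ih, map_zpow₀]

private theorem aniso_iter_zero (σ : M ≃+* M) (t : ℕ) : (⇑σ)^[t] (0 : M) = 0 := by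
  induction t with
  | zero => rfl
  | succ t ih => rw [Function.iterate_succ_apply', ih, map_zero]

private theorem aniso_iter_fix (σ : M ≃+* M) {b : M} (hb : σ b = b) (t : ℕ) : (⇑σ)^[t] b = b := by
  induction t with
  | zero => rfl
  | succ t ih => rw [Function.iterate_succ_apply', ih, hb]

private theorem aniso_tw_add (σ : M ≃+* M) (b : M) (v w : Fin l → M) :
    tw σ b (v + w) = tw σ b v + tw σ b w := by
  funext j
  simp only [tw, Pi.add_apply, map_add, mul_add]

private theorem aniso_tw_smul (σ : M ≃+* M) (b c : M) (v : Fin l → M) :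
    tw σ b (c • v) = σ c • tw σ b v := by
  funext j
  simp only [tw, Pi.smul_apply, smul_eq_mul, map_mul]
  ring

theorem tmat_ne (σ : M ≃+* M) {b : M} (hb : σ b = b) (hσ : ∀ y, (⇑σ)^[l] y = y) (hl : l.Prime)
    (hN : ∀ y : M, ∏ t ∈ Finset.range l, (⇑σ)^[t] y ≠ b) (x : Fin l → M) (hx : x ≠ 0) : (tmat σ b x).det ≠ 0 := by
  intro hdet
  have hb0 : b ≠ 0 := by
    intro h0
    refine hN 0 ?_
    rw [h0]
    refine Finset.prod_eq_zero (Finset.mem_range.mpr hl.pos) ?_
    exact aniso_iter_zero σ 0
  let R : Fin l → Fin l → M := fun i => tmat σ b x i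
  let I : Submodule M (Fin l → M) := Submodule.span M (Set.range R)
  have hrow : ∀ i : Fin l, tmat σ b x i ∈ I := fun i => Submodule.subset_span ⟨i, rfl⟩
  have hxI : x ∈ I := by
    have h := hrow (0 : Fin l)
    have h0 : ((0 : Fin l) : ℕ) = 0 := by simp
    rwa [tmat_iter σ hb x, h0, Function.iterate_zero, id_eq] at h
  have hst : ∀ v ∈ I, tw σ b v ∈ I := by
    intro v hv
    refine Submodule.span_induction (p := fun v _ => tw σ b v ∈ I) ?_ ?_ ?_ ?_ hv
    · rintro _ ⟨i, rfl⟩
      change tw σ b (tmat σ b x i) ∈ I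
      rw [tmat_iter σ hb x, ← Function.iterate_succ_apply' (tw σ b)]
      by_cases hi : (i : ℕ) + 1 < l
      · have h := hrow ⟨(i : ℕ) + 1, hi⟩
        rwa [tmat_iter σ hb x] at h
      · have hi' : Nat.succ (i : ℕ) = l := by have := i.2; omega
        rw [hi', tw_iter σ hb hσ _]
        exact I.smul_mem b hxI
    · have h0 : tw σ b (0 : Fin l → M) = 0 := by
        funext j
        simp [tw]
      rw [h0]
      exact I.zero_mem
    · intro v w _ _ h1 h2
      rw [aniso_tw_add]
      exact I.add_mem h1 h2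
    · intro c v _ h1
      rw [aniso_tw_smul]
      exact I.smul_mem _ h1
  let U : I → I := fun v => ⟨tw σ b v.1, hst v.1 v.2⟩
  have hUit : ∀ (s : ℕ) (v : I), ((U^[s] v : I) : Fin l → M) = (tw σ b)^[s] v.1 := by
    intro s
    induction s with
    | zero => intro v; rfl
    | succ s ih =>
      intro v
      rw [Function.iterate_succ_apply', Function.iterate_succ_apply', ← ih]
  obtain ⟨y, hy⟩ := semi_det σ U (fun v w => Subtype.ext (aniso_tw_add σ b v.1 w.1))
    (fun c v => Subtype.ext (aniso_tw_smul σ b c v.1)) l b (fun v => Subtype.ext (by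
      rw [hUit, tw_iter σ hb hσ _]
      rfl))
  have hk0 : 0 < Module.finrank M I := by
    rw [Module.finrank_pos_iff_exists_ne_zero]
    exact ⟨⟨x, hxI⟩, fun h => hx (congrArg Subtype.val h)⟩
  have hkl : Module.finrank M I < l := by
    have h1 : Module.finrank M I ≤ l := by
      have h2 := finrank_range_le_card (R := M) R
      rwa [Fintype.card_fin] at h2
    refine lt_of_le_of_ne h1 fun h3 => ?_
    have h4 : LinearIndependent M R := by
      rw [linearIndependent_iff_card_eq_finrank_span, Fintype.card_fin]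
      exact h3.symm
    have h5 : IsUnit (tmat σ b x) := Matrix.linearIndependent_rows_iff_isUnit.mp h4
    have h6 := (Matrix.isUnit_iff_isUnit_det _).mp h5
    rw [hdet] at h6
    exact not_isUnit_zero h6
  have hcop : Nat.Coprime (Module.finrank M I) l := by
    rw [Nat.coprime_comm, hl.coprime_iff_not_dvd]
    exact fun hd => absurd (Nat.le_of_dvd hk0 hd) (not_le.mpr hkl)
  have hbez := Int.gcd_eq_gcd_ab (Module.finrank M I : ℤ) (l : ℤ)
  have hg : ((Int.gcd (Module.finrank M I : ℤ) (l : ℤ) : ℕ) : ℤ) = 1 := by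
    rw [Int.gcd_natCast_natCast, hcop]
    rfl
  rw [hg] at hbez
  set u := Int.gcdA (Module.finrank M I : ℤ) (l : ℤ) with hu
  set v := Int.gcdB (Module.finrank M I : ℤ) (l : ℤ) with hv
  refine hN (y ^ u * b ^ v) ?_
  have h7 : ∀ t ∈ Finset.range l, (⇑σ)^[t] (y ^ u * b ^ v) = ((⇑σ)^[t] y) ^ u * b ^ v := by
    intro t _
    rw [aniso_iter_mul, aniso_iter_zpow, aniso_iter_zpow, aniso_iter_fix σ hb]
  rw [Finset.prod_congr rfl h7, Finset.prod_mul_distrib, Finset.prod_zpow, hy, Finset.prod_const,
    Finset.card_range, ← zpow_natCast b (Module.finrank M I), ← zpow_mul, ← zpow_natCast (b ^ v) l,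
    ← zpow_mul, ← zpow_add₀ hb0, mul_comm v (l : ℤ), ← hbez, zpow_one]

end Pool.Agent.Helper59.CI
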