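import Pool.Agent.Helper59.CI.LMap
import Pool.Agent.Helper59.CI.Aniso
import Pool.Agent.Helper37.CiNorm

/-!
# CI-6 Form: the reduced norm form of a cyclic algebra of prime degree

Proof. `l = [M : L]` prime, the Galois group `M ≃ₐ[L] M` has order `l` (`IsGalois.card_aut_eq_finrank`), so it is cyclic (`isCyclic_of_prime_card`), generated by `τ` of order `l`; `σ = τ.toRingEquiv`;
`σ^[l] = id`, `σ` fixes `L`, an element fixed by `σ` is in the range of `algebraMap L M` (`IsGalois.mem_bot_iff_fixed`, all automorphisms are powers of `τ`), and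
`algebraMap L M (Algebra.norm L y) = ∏ over the group = ∏ t ∈ range l, σ^[t] y` (`Algebra.norm_eq_prod_automorphisms`, reindex by the powers of `τ`). So `algebraMap b` is not such a product and `b ≠ 0`.
With a basis `β` of `M` over `L` (index `Fin l`) consider the matrix of linear forms over `M` in the variables `(j, k) : Fin l × Fin l`,
`i j ↦ C (if j < i then b else 1) * ∑ k, C (σ^[i] (β k)) * X (j - i, k)`; its determinant `D` is homogeneous of degree `l` (`Helper37.Ci.isHomogeneous_det`) and its value at `x` (in `L`) is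
`(tmat σ b y).det` with `y j = ∑ k, x (j, k) • β k`. Take `lmap φ D` with `φ : M →ₗ[L] L`, `φ 1 = 1` (extension of a functional, `exists_leftInverse` or `Module.exists_dual_forall_apply_eq_zero_iff`): its value is `φ (det)`,
`det` is in `L` (`det_tmat`), so the value is `0` only if `det = 0`, so `y = 0` (`tmat_ne`) and `x = 0`. Finally `Fin l × Fin l ≃ Fin (l ^ 2)` and `Unit ≃ Fin 1` (`SysT.congr`).
-/

set_option autoImplicit false

open MvPolynomial Pool.Agent.Helper37.Ci

namespace Pool.Agent.Helper59.CI

universe u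

private theorem form_iter {L M : Type*} [Field L] [Field M] [Algebra L M] (τ : M ≃ₐ[L] M) (t : ℕ)
    (y : M) : (⇑τ.toRingEquiv)^[t] y = (τ ^ t) y := by
  induction t with
  | zero => rfl
  | succ t ih =>
    rw [Function.iterate_succ_apply', ih, pow_succ']
    rfl

/-- the norm is the product over the powers of a generator -/
private theorem form_norm {L M : Type*} [Field L] [Field M] [Algebra L M] [FiniteDimensional L M]
    [IsGalois L M] (τ : M ≃ₐ[L] M) (hτ : ∀ g, g ∈ Subgroup.zpowers τ) (y : M) :
    algebraMap L M (Algebra.norm L y) = ∏ t ∈ Finset.range (Module.finrank L M), (τ ^ t) y := by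
  classical
  have hord : orderOf τ = Module.finrank L M := by
    rw [orderOf_eq_card_of_forall_mem_zpowers hτ, IsGalois.card_aut_eq_finrank]
  rw [Algebra.norm_eq_prod_automorphisms, ← hord, ← IsCyclic.image_range_orderOf hτ,
    Finset.prod_image]
  intro i hi j hj hij
  exact pow_injOn_Iio_orderOf (by simpa using hi) (by simpa using hj) hij

/-- an element fixed by a generator is in the base field -/
private theorem form_fixed {L M : Type*} [Field L] [Field M] [Algebra L M] [FiniteDimensional L M]
    [IsGalois L M] (τ : M ≃ₐ[L] M) (hτ : ∀ g, g ∈ Subgroup.zpowers τ) (y : M) (hy : τ y = y) :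
    ∃ a : L, algebraMap L M a = y := by
  have h1 : y ∈ (⊥ : IntermediateField L M) := by
    rw [IsGalois.mem_bot_iff_fixed]
    intro g
    have h2 : Subgroup.zpowers τ ≤ MulAction.stabilizer (M ≃ₐ[L] M) y := by
      rw [Subgroup.zpowers_le]
      exact hy
    exact h2 (hτ g)
  rw [IntermediateField.mem_bot] at h1
  exact h1

theorem cyc_form {L M : Type u} [Field L] [Field M] [Algebra L M] [FiniteDimensional L M] [IsGalois L M] (hl : (Module.finrank L M).Prime)
    (b : L) (hb : ∀ y : M, Algebra.norm L y ≠ b) : Sys L (Module.finrank L M ^ 2) 1 (Module.finrank L M) := by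
  classical
  have hne : NeZero (Module.finrank L M) := ⟨hl.ne_zero⟩
  have hfact : Fact (Module.finrank L M).Prime := ⟨hl⟩
  have hcard : Nat.card (M ≃ₐ[L] M) = Module.finrank L M := IsGalois.card_aut_eq_finrank L M
  have hcyc : IsCyclic (M ≃ₐ[L] M) := isCyclic_of_prime_card hcard
  obtain ⟨τ, hτ⟩ := IsCyclic.exists_generator (α := M ≃ₐ[L] M)
  obtain ⟨σ, hσdef⟩ : ∃ σ : M ≃+* M, σ = τ.toRingEquiv := ⟨_, rfl⟩
  have hit : ∀ (t : ℕ) (y : M), (⇑σ)^[t] y = (τ ^ t) y := by
    intro t y
    rw [hσdef]
    exact form_iter τ t y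
  obtain ⟨b', hb'⟩ : ∃ b' : M, b' = algebraMap L M b := ⟨_, rfl⟩
  have hσb : σ b' = b' := by
    rw [hσdef, hb']
    exact τ.commutes b
  have hσl : ∀ y, (⇑σ)^[Module.finrank L M] y = y := by
    intro y
    rw [hit]
    have h1 : τ ^ Module.finrank L M = 1 := by
      rw [← hcard]
      exact pow_card_eq_one'
    rw [h1]
    rfl
  have hN : ∀ y : M, ∏ t ∈ Finset.range (Module.finrank L M), (⇑σ)^[t] y ≠ b' := by
    intro y h
    apply hb y
    apply (algebraMap L M).injective
    rw [form_norm τ hτ y, ← hb', ← h]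
    exact Finset.prod_congr rfl fun t _ => (hit t y).symm
  have hb0 : b' ≠ 0 := by
    intro h0
    refine hN 0 ?_
    rw [h0]
    refine Finset.prod_eq_zero (Finset.mem_range.mpr hl.pos) ?_
    rfl
  obtain ⟨β, -⟩ : ∃ β : Module.Basis (Fin (Module.finrank L M)) L M, True :=
    ⟨Module.finBasis L M, trivial⟩
  obtain ⟨φ, hφ⟩ : ∃ φ : M →ₗ[L] L, ∀ a, φ (algebraMap L M a) = a := by
    obtain ⟨g, hg⟩ := LinearMap.exists_leftInverse_of_injective (Algebra.linearMap L M)
      (LinearMap.ker_eq_bot.2 (algebraMap L M).injective)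
    exact ⟨g, fun a => LinearMap.congr_fun hg a⟩
  obtain ⟨A, hA⟩ : ∃ A : Matrix (Fin (Module.finrank L M)) (Fin (Module.finrank L M))
      (MvPolynomial (Fin (Module.finrank L M) × Fin (Module.finrank L M)) M),
      ∀ i j, A i j = C (if j < i then b' else 1) *
        ∑ k, C ((⇑σ)^[(i : ℕ)] (β k)) * X (j - i, k) := ⟨Matrix.of fun i j => _, fun _ _ => rfl⟩
  have hA1 : ∀ i j, (A i j).IsHomogeneous 1 := by
    intro i j
    rw [hA]
    have h1 : (∑ k, C ((⇑σ)^[(i : ℕ)] (β k)) *
        (X (j - i, k) : MvPolynomial (Fin (Module.finrank L M) × Fin (Module.finrank L M)) M)).IsHomogeneous 1 := by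
      refine IsHomogeneous.sum _ _ _ (fun k _ => ?_)
      have := (isHomogeneous_C (Fin (Module.finrank L M) × Fin (Module.finrank L M))
        ((⇑σ)^[(i : ℕ)] (β k))).mul (isHomogeneous_X M (j - i, k))
      simpa using this
    have h2 := (isHomogeneous_C (Fin (Module.finrank L M) × Fin (Module.finrank L M))
      (if j < i then b' else 1)).mul h1
    simpa using h2
  have hdet : A.det.IsHomogeneous (Module.finrank L M) := isHomogeneous_det A hA1
  have key : SysT L (Fin (Module.finrank L M) × Fin (Module.finrank L M)) Unit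
      (Module.finrank L M) := by
    refine ⟨fun _ => lmap φ A.det, fun _ => lmap_hom φ hdet, fun x hx => ?_⟩
    have h1 := hx ()
    rw [eval_lmap] at h1
    obtain ⟨y, hy⟩ : ∃ y : Fin (Module.finrank L M) → M, ∀ j, y j = ∑ k, x (j, k) • β k :=
      ⟨fun j => _, fun _ => rfl⟩
    have h2 : eval (fun t => algebraMap L M (x t)) A.det = (tmat σ b' y).det := by
      rw [RingHom.map_det]
      congr 1
      ext i j
      change eval (fun t => algebraMap L M (x t)) (A i j) =
        (if j < i then b' else 1) * (⇑σ)^[(i : ℕ)] (y (j - i))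
      rw [hA, map_mul, eval_C, map_sum, hy, hit, map_sum]
      congr 1
      refine Finset.sum_congr rfl fun k _ => ?_
      rw [map_mul, eval_C, eval_X, hit, map_smul, Algebra.smul_def, mul_comm]
    rw [h2] at h1
    obtain ⟨a, ha⟩ := form_fixed τ hτ (tmat σ b' y).det (by
      have h3 := det_tmat σ hσb hb0 hσl y
      rw [hσdef] at h3 ⊢
      exact h3)
    rw [← ha, hφ] at h1
    have h4 : (tmat σ b' y).det = 0 := by
      rw [← ha, h1, map_zero]
    have h5 : y = 0 := by
      by_contra h6
      exact tmat_ne σ hσb hσl hl hN y h6 h4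
    funext ⟨j, k⟩
    have h7 : ∑ k, x (j, k) • β k = 0 := by
      rw [← hy, h5]
      rfl
    exact Fintype.linearIndependent_iff.mp β.linearIndependent (fun k => x (j, k)) h7 k
  exact SysT.congr (finProdFinEquiv.trans (finCongr (sq _).symm)) finOneEquiv.symm key

end Pool.Agent.Helper59.CI
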