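import Pool.Agent.Helper59.CI.PGroup

/-!
# CI-8 Galois: if the norms of prime degree Galois extensions are surjective, then all norms of Galois extensions are

Proof. `b = 0`: `y = 0` (`[M : L] > 0`). Let `b ≠ 0`, `n = [M : L]`, `S` = the set of integers `m` with `b ^ m` (`zpow`) a norm of a nonzero element, an additive subgroup of `ℤ`, so `S = gℤ`
(`Int.subgroup_cyclic` or `AddSubgroup` of `ℤ`; or use gcds). `n ∈ S` (`Algebra.norm_algebraMap`), so `g ≠ 0`. If `g ≠ ± 1` let `p` be a prime divisor of `g`, so `p ∣ n`. Let `P` be a Sylow `p`-subgroup of the Galois group,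
`F = fixedField P`: `[M : F] = card P` is a power of `p` (`IntermediateField.finrank_fixedField_eq_card`), `[F : L] = index of P` is prime to `p`. `ns_pgroup` for `M / F` (with `F` a `K`-algebra as in CI-7) gives
`y` with `norm F y = algebraMap b`, so `norm L y = norm L (algebraMap L F b) = b ^ [F : L]` (`Algebra.norm_norm`), so `[F : L] ∈ S`, so `p ∣ [F : L]`, a contradiction. So `1 ∈ S`.
-/

set_option autoImplicit false

namespace Pool.Agent.Helper59.CI

universe u

theorem ns_all {K : Type u} [Field K] (hK : NS K) (L M : Type u) [Field L] [Field M] [Algebra K L] [Algebra L M] [FiniteDimensional K L]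
    [FiniteDimensional L M] [IsGalois L M] (b : L) : ∃ y : M, Algebra.norm L y = b := by
  classical
  rcases eq_or_ne b 0 with rfl | hb
  · exact ⟨0, Algebra.norm_zero⟩
  let S : AddSubgroup ℤ :=
    { carrier := {m | ∃ y : M, Algebra.norm L y = b ^ m}
      zero_mem' := ⟨1, by simp⟩
      add_mem' := by
        rintro m m' ⟨y, hy⟩ ⟨y', hy'⟩
        exact ⟨y * y', by rw [map_mul, hy, hy', zpow_add₀ hb]⟩
      neg_mem' := by
        rintro m ⟨y, hy⟩
        have hy0 : y ≠ 0 := by
          rintro rfl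
          rw [Algebra.norm_zero] at hy
          exact zpow_ne_zero m hb hy.symm
        refine ⟨y⁻¹, ?_⟩
        have h1 : Algebra.norm L y⁻¹ * Algebra.norm L y = 1 := by
          rw [← map_mul, inv_mul_cancel₀ hy0, map_one]
        rw [hy] at h1
        rw [zpow_neg]
        exact eq_inv_of_mul_eq_one_left h1 }
  have hS : ∀ m : ℤ, m ∈ S ↔ ∃ y : M, Algebra.norm L y = b ^ m := fun m => Iff.rfl
  obtain ⟨g, hg⟩ := Int.subgroup_cyclic S
  have hdiv : ∀ m : ℕ, ((m : ℤ) ∈ S) → g.natAbs ∣ m := by
    intro m hm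
    rw [hg, AddSubgroup.mem_closure_singleton] at hm
    obtain ⟨k, hk⟩ := hm
    have : g ∣ (m : ℤ) := ⟨k, by rw [← hk]; simp [mul_comm]⟩
    exact Int.natAbs_dvd_natAbs.2 this
  have hn : ((Module.finrank L M : ℕ) : ℤ) ∈ S := by
    rw [hS]
    exact ⟨algebraMap L M b, by rw [Algebra.norm_algebraMap, zpow_natCast]⟩
  have h1 : g.natAbs = 1 := by
    by_contra hne
    obtain ⟨p, hp, hpg⟩ := Nat.exists_prime_and_dvd hne
    haveI := Fact.mk hp
    have P : Sylow p (M ≃ₐ[L] M) := default
    let F : IntermediateField L M := IntermediateField.fixedField (P : Subgroup (M ≃ₐ[L] M))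
    letI : Algebra K F := ((algebraMap L F).comp (algebraMap K L)).toAlgebra
    haveI : IsScalarTower K L F := IsScalarTower.of_algebraMap_eq' rfl
    haveI : FiniteDimensional K F := FiniteDimensional.trans K L F
    have hFM : Module.finrank F M = Nat.card (P : Subgroup (M ≃ₐ[L] M)) :=
      IntermediateField.finrank_fixedField_eq_card _
    obtain ⟨m, hm⟩ : ∃ m : ℕ, Nat.card (P : Subgroup (M ≃ₐ[L] M)) = p ^ m :=
      (IsPGroup.iff_card).1 P.isPGroup'
    obtain ⟨y, hy⟩ := ns_pgroup hK hp m F M (by rw [hFM, hm]) (algebraMap L F b)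
    have hLF : ((Module.finrank L F : ℕ) : ℤ) ∈ S := by
      rw [hS]
      refine ⟨y, ?_⟩
      rw [← Algebra.norm_norm (R := L) (S := F), hy, Algebra.norm_algebraMap, zpow_natCast]
    have hpF : p ∣ Module.finrank L F := hpg.trans (hdiv _ hLF)
    have hidx : Module.finrank L F = (P : Subgroup (M ≃ₐ[L] M)).index := by
      have e1 : Module.finrank L F * Module.finrank F M = Module.finrank L M :=
        Module.finrank_mul_finrank L F M
      have e2 : Nat.card (M ≃ₐ[L] M) = Module.finrank L M := IsGalois.card_aut_eq_finrank L M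
      have e3 := (P : Subgroup (M ≃ₐ[L] M)).index_mul_card
      rw [hFM, ← e2, ← e3] at e1
      exact Nat.eq_of_mul_eq_mul_right Nat.card_pos e1
    exact P.not_dvd_index (hidx ▸ hpF)
  have h1S : (1 : ℤ) ∈ S := by
    rw [hg, AddSubgroup.mem_closure_singleton]
    rcases Int.natAbs_eq g with h | h
    · exact ⟨1, by rw [h, h1]; simp⟩
    · exact ⟨-1, by rw [h, h1]; simp⟩
  obtain ⟨y, hy⟩ := (hS 1).1 h1S
  exact ⟨y, by rw [hy, zpow_one]⟩

end Pool.Agent.Helper59.CI
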