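import Pool.Agent.Helper59.CI.Weil
import Pool.Agent.Helper59.CI.Form
import Pool.Agent.Helper59.CI.Galois
import Pool.Agent.Helper37.CiGeneral

/-!
# CI-9 Main
-/

set_option autoImplicit false

open MvPolynomial Pool.Agent.Helper37.Ci

namespace Pool.Agent.Helper59.CI

universe u

/-- Extremal systems over finite extensions suffice. -/
theorem extremal_ext {K : Type u} [Field K] {i : ℕ} (hK : CiS K i)
    (H : ∀ p : ℕ, p.Prime → ∃ (L : Type u) (_ : Field L) (_ : Algebra K L), FiniteDimensional K L ∧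
      ∃ e N : ℕ, 2 ≤ e ∧ 1 ≤ N ∧ (Nat.Coprime e p ∨ ∃ a, e = p ^ a) ∧ Sys L (N * e ^ i) N e)
    {n r : ℕ} {d : Fin r → ℕ} (f : Fin r → MvPolynomial (Fin n) K) (hd : ∀ j, 0 < d j)
    (hf : ∀ j, (f j).IsHomogeneous (d j))
    (hf0 : ∀ x : Fin n → K, (∀ j, eval x (f j) = 0) → x = 0) : n ≤ ∑ j, d j ^ i := by
  refine extremal_field hK (fun p hp => ?_) f hd hf hf0
  obtain ⟨L, _, _, hL, e, N, he, hN, hor, hS⟩ := H p hp
  refine ⟨e, Module.finrank K L * N, he, Nat.mul_pos Module.finrank_pos hN, hor, ?_⟩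
  have h1 := weil_sys (K := K) hS
  rwa [← mul_assoc] at h1

/-- A `C_2` field above which some norm map is not surjective has an extremal system over a finite extension. -/
theorem extremal_two {K : Type u} [Field K]
    (H : ∃ (L M : Type u) (_ : Field L) (_ : Field M) (_ : Algebra K L) (_ : Algebra L M), FiniteDimensional K L ∧
      FiniteDimensional L M ∧ IsGalois L M ∧ ∃ b : L, ∀ y : M, Algebra.norm L y ≠ b) :
    ∃ (L : Type u) (_ : Field L) (_ : Algebra K L), FiniteDimensional K L ∧ ∃ l : ℕ, l.Prime ∧ Sys L (1 * l ^ 2) 1 l := by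
  obtain ⟨L, M, _, _, _, _, hL, hM, hG, b, hb⟩ := H
  have hns : ¬ NS K := fun h => by
    obtain ⟨y, hy⟩ := ns_all h L M b
    exact hb y hy
  unfold NS at hns
  push Not at hns
  obtain ⟨L', M', _, _, _, _, hL', hM', hG', hl, b', hb'⟩ := hns
  refine ⟨L', inferInstance, inferInstance, hL', Module.finrank L' M', hl, ?_⟩
  rw [one_mul]
  exact cyc_form hl b' hb'

end Pool.Agent.Helper59.CI
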