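import Pool.Agent.Helper59.CI.LMap

/-!
# CI-2 Weil: Weil restriction of anisotropic systems

Let `b` be a `K`-basis of `L` with `m = [L : K]` elements. For a form `f` of degree `e` over `L` in the variables `s : σ` put
`F = aeval (fun s => ∑ j, C (b j) * X (j, s)) f`, a form of degree `e` over `L` in the variables `(j, s)` (`IsHomogeneous.aeval`), and take the `m` forms
`lmap (b.coord k) F`. If all of them vanish at `x : Fin m × σ → K` then `f` vanishes at `y s = ∑ j, x (j, s) • b j` (`eval_lmap`, `Helper37.Ci.eval_aeval_poly`),
so `y = 0` and `x = 0` (linear independence).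
-/

set_option autoImplicit false

open MvPolynomial Pool.Agent.Helper37.Ci

namespace Pool.Agent.Helper59.CI

universe u

theorem weil {K L : Type u} [Field K] [Field L] [Algebra K L] [FiniteDimensional K L] {σ ι : Type} {e : ℕ} (h : SysT L σ ι e) :
    SysT K (Fin (Module.finrank K L) × σ) (Fin (Module.finrank K L) × ι) e := by
  classical
  obtain ⟨f, hf, hf0⟩ := h
  let b := Module.finBasis K L
  let g : σ → MvPolynomial (Fin (Module.finrank K L) × σ) L :=
    fun s => ∑ j, C (b j) * X (j, s)
  have hg : ∀ s, (g s).IsHomogeneous 1 := fun s => by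
    refine IsHomogeneous.sum _ _ _ (fun j _ => ?_)
    have h1 := (isHomogeneous_C (Fin (Module.finrank K L) × σ) (b j)).mul
      (isHomogeneous_X L (j, s))
    rwa [zero_add] at h1
  refine ⟨fun p => lmap (b.coord p.1) (aeval g (f p.2)), fun p => ?_, fun x hx => ?_⟩
  · have h1 := (hf p.2).aeval g hg
    rw [one_mul] at h1
    exact lmap_hom _ h1
  · have hy : (fun s => ∑ j, x (j, s) • b j) = (0 : σ → L) := by
      apply hf0
      intro i
      apply b.ext_elem
      intro k
      have h1 := hx (k, i)
      change eval x (lmap (b.coord k) (aeval g (f i))) = 0 at h1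
      rw [eval_lmap, eval_aeval_poly] at h1
      have h2 : (fun s => eval (fun t => algebraMap K L (x t)) (g s)) =
          fun s => ∑ j, x (j, s) • b j := by
        funext s
        simp only [g, map_sum, map_mul, eval_C, eval_X]
        refine Finset.sum_congr rfl (fun j _ => ?_)
        rw [Algebra.smul_def, mul_comm]
      rw [h2] at h1
      rw [map_zero]
      exact h1
    funext p
    exact Fintype.linearIndependent_iff.1 b.linearIndependent (fun j => x (j, p.2))
      (congrFun hy p.2) p.1

theorem weil_sys {K L : Type u} [Field K] [Field L] [Algebra K L] [FiniteDimensional K L] {b N e : ℕ} (h : Sys L b N e) :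
    Sys K (Module.finrank K L * b) (Module.finrank K L * N) e := by
  exact (weil h).congr finProdFinEquiv finProdFinEquiv

end Pool.Agent.Helper59.CI
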