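import Pool.Agent.Helper37.CiBasic

/-!
# CI-1 LMap: applying a `K`-linear functional to the coefficients of a polynomial over `L`

`lmap φ F` has the coefficients `φ (coeff m F)`; it is homogeneous of the same degree and
`eval x (lmap φ F) = φ (eval (algebraMap K L ∘ x) F)` (sum over the support, `eval_eq`; `φ` is `K`-linear and the products of the `x t` are in `K`).
-/

set_option autoImplicit false

open MvPolynomial

namespace Pool.Agent.Helper59.CI

noncomputable def lmap {K L : Type*} [Field K] [Field L] [Algebra K L] {τ : Type} (φ : L →ₗ[K] K) (F : MvPolynomial τ L) :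
    MvPolynomial τ K :=
  ∑ m ∈ F.support, monomial m (φ (coeff m F))

theorem lmap_hom {K L : Type*} [Field K] [Field L] [Algebra K L] {τ : Type} (φ : L →ₗ[K] K) {F : MvPolynomial τ L} {e : ℕ}
    (hF : F.IsHomogeneous e) : (lmap φ F).IsHomogeneous e := by
  unfold lmap
  apply IsHomogeneous.sum
  intro m hm
  apply isHomogeneous_monomial
  rw [← hF (mem_support_iff.1 hm)]
  exact (Finsupp.degree_eq_weight_one (R := ℕ) ▸ rfl)

theorem eval_lmap {K L : Type*} [Field K] [Field L] [Algebra K L] {τ : Type} (φ : L →ₗ[K] K) (F : MvPolynomial τ L) (x : τ → K) :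
    eval x (lmap φ F) = φ (eval (fun t => algebraMap K L (x t)) F) := by
  unfold lmap
  rw [map_sum, eval_eq, map_sum]
  refine Finset.sum_congr rfl fun m _ => ?_
  rw [eval_monomial, Finsupp.prod]
  have h1 : coeff m F * ∏ i ∈ m.support, algebraMap K L (x i) ^ m i =
      (∏ i ∈ m.support, x i ^ m i) • coeff m F := by
    rw [Algebra.smul_def, map_prod, mul_comm]
    congr 1
    exact Finset.prod_congr rfl fun i _ => (map_pow _ _ _).symm
  rw [h1, map_smul, smul_eq_mul, mul_comm]

end Pool.Agent.Helper59.CI
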