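import Mathlib

/-!
# CI-7 PGroup: norms of Galois extensions of prime power degree

`NS K`: all norm maps of Galois extensions of prime degree `M / L`, `L` finite over `K`, are surjective.
`ns_pgroup`: induction on `m` (for all `L`, `M`). `m = 0`: `norm (algebraMap b) = b ^ 1` (`Algebra.norm_algebraMap`). Step: the Galois group has order `p ^ (m + 1)`
(`IsGalois.card_aut_eq_finrank`), it has a subgroup `H` of order `p ^ m` (`Sylow.exists_subgroup_card_pow_prime`), of index `p`, so normal (`Subgroup.normal_of_index_eq_minFac_card`);
`E = fixedField H`: `[M : E] = p ^ m` (`IntermediateField.finrank_fixedField_eq_card`), `[E : L] = p`, `E / L` is Galois (`H` normal, `IsGalois.of_fixedField_normal_subgroup` or `normal`/`separable`),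
`M / E` is Galois (instance). `E` is a `K`-algebra by `((algebraMap L E).comp (algebraMap K L)).toAlgebra`, finite over `K`. `NS K` for `E / L`, the induction hypothesis for `M / E`, `Algebra.norm_norm`.
-/

/-!
# CI-7 PGroup: norms of Galois extensions of prime power degree

`NS K`: all norm maps of Galois extensions of prime degree `M / L`, `L` finite over `K`, are surjective.
`ns_pgroup`: induction on `m` (for all `L`, `M`). `m = 0`: `norm (algebraMap b) = b ^ 1` (`Algebra.norm_algebraMap`). Step: the Galois group has order `p ^ (m + 1)`
(`IsGalois.card_aut_eq_finrank`), it has a subgroup `H` of order `p ^ m` (`Sylow.exists_subgroup_card_pow_prime`), of index `p`, so normal (`Subgroup.normal_of_index_eq_minFac_card`);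
`E = fixedField H`: `[M : E] = p ^ m` (`IntermediateField.finrank_fixedField_eq_card`), `[E : L] = p`, `E / L` is Galois (`H` normal, `IsGalois.of_fixedField_normal_subgroup` or `normal`/`separable`),
`M / E` is Galois (instance). `E` is a `K`-algebra by `((algebraMap L E).comp (algebraMap K L)).toAlgebra`, finite over `K`. `NS K` for `E / L`, the induction hypothesis for `M / E`, `Algebra.norm_norm`.
-/

set_option autoImplicit false

namespace Pool.Agent.Helper59.CI

universe u

def NS (K : Type u) [Field K] : Prop :=
  ∀ (L M : Type u) [Field L] [Field M] [Algebra K L] [Algebra L M] [FiniteDimensional K L] [FiniteDimensional L M] [IsGalois L M],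
    (Module.finrank L M).Prime → ∀ b : L, ∃ y : M, Algebra.norm L y = b

theorem ns_pgroup {K : Type u} [Field K] (hK : NS K) {p : ℕ} (hp : p.Prime) (m : ℕ) :
    ∀ (L M : Type u) [Field L] [Field M] [Algebra K L] [Algebra L M] [FiniteDimensional K L] [FiniteDimensional L M] [IsGalois L M],
      Module.finrank L M = p ^ m → ∀ b : L, ∃ y : M, Algebra.norm L y = b := by
  induction m with
  | zero =>
    intro L M _ _ _ _ _ _ _ h b
    refine ⟨algebraMap L M b, ?_⟩
    rw [Algebra.norm_algebraMap, h, pow_zero, pow_one]
  | succ m ih =>
    intro L M _ _ _ _ _ _ _ h b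
    haveI := Fact.mk hp
    have hcard : Nat.card (M ≃ₐ[L] M) = p ^ (m + 1) := by
      rw [IsGalois.card_aut_eq_finrank, h]
    obtain ⟨H, hH⟩ := Sylow.exists_subgroup_card_pow_prime (G := M ≃ₐ[L] M) p (n := m)
      (by rw [hcard]; exact pow_dvd_pow p (Nat.le_succ m))
    have hidx : H.index = p := by
      have h1 := H.card_mul_index
      rw [hH, hcard, pow_succ] at h1
      exact Nat.eq_of_mul_eq_mul_left (pow_pos hp.pos m) h1
    have hnorm : H.Normal := by
      apply Subgroup.normal_of_index_eq_minFac_card
      rw [hidx, hcard, Nat.pow_minFac (Nat.succ_ne_zero m), hp.minFac_eq]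
    have hfin : Module.finrank (IntermediateField.fixedField H) M = p ^ m := by
      rw [IntermediateField.finrank_fixedField_eq_card, hH]
    have hgal : IsGalois L (IntermediateField.fixedField H) := IsGalois.of_fixedField_normal_subgroup H
    have hfinE : Module.finrank L (IntermediateField.fixedField H) = p := by
      have h1 := Module.finrank_mul_finrank L (IntermediateField.fixedField H) M
      rw [hfin, h, pow_succ, mul_comm (p ^ m) p] at h1
      exact Nat.eq_of_mul_eq_mul_right (pow_pos hp.pos m) h1
    obtain ⟨z, hz⟩ := hK L (IntermediateField.fixedField H) (by rw [hfinE]; exact hp) b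
    letI : Algebra K (IntermediateField.fixedField H) :=
      ((algebraMap L (IntermediateField.fixedField H)).comp (algebraMap K L)).toAlgebra
    haveI : IsScalarTower K L (IntermediateField.fixedField H) := IsScalarTower.of_algebraMap_eq (fun x => rfl)
    haveI : FiniteDimensional K (IntermediateField.fixedField H) := Module.Finite.trans L _
    obtain ⟨y, hy⟩ := ih (IntermediateField.fixedField H) M hfin z
    refine ⟨y, ?_⟩
    rw [← Algebra.norm_norm (R := L) (S := IntermediateField.fixedField H) (A := M), hy, hz]

end Pool.Agent.Helper59.CI
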