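import Mathlib

/-!
# CI-3 Semi: the determinant of a semilinear map

Proof. Let `e` be a basis of `V` with `k` elements and `A i j = e.repr (U (e j)) i`. By additivity and semilinearity the coordinates of `U v` are
`A *ᵥ (σ ∘ coordinates of v)`. Put `B 0 = 1`, `B (s + 1) = A * (B s).map σ`; by induction the coordinates of `U^[s] v` are `B s *ᵥ (σ^[s] ∘ coordinates of v)`
(`Function.iterate_succ_apply'`). Induction: `det (B s) = ∏ t ∈ range s, σ^[t] (det A)` (`det` commutes with `map σ`: `RingHom.map_det` or `RingEquiv.map_det`).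
For `s = l` and `v = e j`: `B l = b • 1` (the coordinates of `e j` are `0`, `1`, fixed by `σ`), so `b ^ k = det (B l)`. Take `y = det A`.
-/

set_option autoImplicit false

namespace Pool.Agent.Helper59.CI

theorem semi_det {M : Type*} [Field M] (σ : M ≃+* M) {V : Type*} [AddCommGroup V] [Module M V] [FiniteDimensional M V] (U : V → V)
    (hadd : ∀ v w, U (v + w) = U v + U w) (hsmul : ∀ (c : M) v, U (c • v) = σ c • U v) (l : ℕ) (b : M) (hU : ∀ v, U^[l] v = b • v) :
    ∃ y : M, ∏ t ∈ Finset.range l, (⇑σ)^[t] y = b ^ Module.finrank M V := by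
  obtain ⟨e, -⟩ : ∃ e : Module.Basis (Fin (Module.finrank M V)) M V, True :=
    ⟨Module.finBasis M V, trivial⟩
  obtain ⟨UU, hUU⟩ : ∃ UU : V →+ V, ∀ v, UU v = U v := ⟨AddMonoidHom.mk' U hadd, fun v => rfl⟩
  obtain ⟨A, hA⟩ : ∃ A : Matrix (Fin (Module.finrank M V)) (Fin (Module.finrank M V)) M,
      ∀ i j, A i j = e.equivFun (U (e j)) i := ⟨Matrix.of fun i j => e.equivFun (U (e j)) i,
        fun _ _ => rfl⟩
  have h1 : ∀ v, e.equivFun (U v) = Matrix.mulVec A (fun j => σ (e.equivFun v j)) := by
    intro v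
    have hv : U v = ∑ j, σ (e.equivFun v j) • U (e j) := by
      conv_lhs => rw [← e.sum_equivFun v]
      rw [← hUU, map_sum]
      apply Finset.sum_congr rfl
      intro j _
      rw [hUU, hsmul]
    rw [hv, map_sum]
    ext i
    rw [Finset.sum_apply]
    unfold Matrix.mulVec dotProduct
    apply Finset.sum_congr rfl
    intro j _
    rw [map_smul, Pi.smul_apply, smul_eq_mul, mul_comm]
    exact congrArg (· * σ (e.equivFun v j)) (hA i j).symm
  obtain ⟨B, hB0, hBs⟩ : ∃ B : ℕ → Matrix (Fin (Module.finrank M V)) (Fin (Module.finrank M V)) M,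
      B 0 = 1 ∧ ∀ s, B (s + 1) = A * (B s).map (σ : M →+* M) :=
    ⟨fun s => Nat.rec 1 (fun _ C => A * C.map (σ : M →+* M)) s, rfl, fun _ => rfl⟩
  have h2 : ∀ s v, e.equivFun (U^[s] v) =
      Matrix.mulVec (B s) (fun j => (⇑σ)^[s] (e.equivFun v j)) := by
    intro s v
    induction s with
    | zero =>
      rw [hB0, Matrix.one_mulVec]
      rfl
    | succ s ih =>
      rw [Function.iterate_succ_apply', h1, ih, hBs, ← Matrix.mulVec_mulVec]
      congr 1
      ext j
      have h3 := RingHom.map_mulVec (σ : M →+* M) (B s) (fun j => (⇑σ)^[s] (e.equivFun v j)) j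
      refine h3.trans ?_
      have h4 : (⇑(σ : M →+* M) ∘ fun j => (⇑σ)^[s] (e.equivFun v j)) =
          fun j => (⇑σ)^[s + 1] (e.equivFun v j) := by
        ext j'
        rw [Function.iterate_succ_apply']
        rfl
      rw [h4]
  have h3 : ∀ s, (B s).det = ∏ t ∈ Finset.range s, (⇑σ)^[t] A.det := by
    intro s
    induction s with
    | zero => rw [hB0]; simp
    | succ s ih =>
      have h4 : ((B s).map (σ : M →+* M)).det = σ (B s).det :=
        (RingHom.map_det (σ : M →+* M) (B s)).symm
      rw [hBs, Matrix.det_mul, h4, ih, Finset.prod_range_succ', map_prod, mul_comm]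
      congr 1
      apply Finset.prod_congr rfl
      intro t _
      rw [Function.iterate_succ_apply']
  have hit0 : ∀ s : ℕ, (⇑σ)^[s] (0 : M) = 0 := fun s =>
    Function.iterate_fixed (map_zero σ) s
  have hit1 : ∀ s : ℕ, (⇑σ)^[s] (1 : M) = 1 := fun s =>
    Function.iterate_fixed (map_one σ) s
  have h5 : B l = b • (1 : Matrix (Fin (Module.finrank M V)) (Fin (Module.finrank M V)) M) := by
    ext i j
    have h6 := congrFun (h2 l (e j)) i
    rw [hU, map_smul, Pi.smul_apply] at h6
    have h7 : (fun j' => (⇑σ)^[l] (e.equivFun (e j) j')) = Pi.single j (1 : M) := by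
      ext j'
      rw [Module.Basis.equivFun_self]
      by_cases hjj : j = j'
      · subst hjj
        simp [hit1]
      · rw [if_neg hjj, hit0, Pi.single_eq_of_ne (Ne.symm hjj)]
    rw [h7, Matrix.mulVec_single_one, Module.Basis.equivFun_self] at h6
    rw [Matrix.smul_apply, Matrix.one_apply]
    have h8 : (B l).col j i = B l i j := rfl
    rw [h8] at h6
    rw [← h6]
    by_cases hij : i = j
    · rw [if_pos hij, if_pos hij.symm]
    · rw [if_neg hij, if_neg (Ne.symm hij)]
  refine ⟨A.det, ?_⟩
  rw [← h3, h5, Matrix.det_smul, Matrix.det_one, mul_one, Fintype.card_fin]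

end Pool.Agent.Helper59.CI
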